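import Mathlib

/-!
# A simple solution of the Yang-Baxter equation with non-dividing block size

The solution of order `16` on `ℤ/4 × ℤ/4` with `σ_(a,c)(b,d) = (b + c, d - j_(b+c-a))`,
`j_0 = j_1 = j_3 = 0`, `j_2 = 1`, belongs to a known family of simple solutions (Cedó and Okniński).
The permutation group preserves the partition according to the parity of the first coordinate, so
there are `2` blocks with `8` elements each, and `8` does not divide `2`.

Here `(a, c)` is written as the element `(a mod 2, 4 (a div 2) + c)` of `Fin 2 × Fin 8`.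
Simplicity is proved by following the pairs of elements that are identified by an epimorphism.
-/

set_option autoImplicit false

namespace Pool.Agent.Results.MP_9f168b_al.NonDividingBlocks

/-- An involutive non-degenerate solution `r (x, y) = (sigma x y, tau y x)` of the Yang-Baxter
equation on the set `X`: `sigma x` is `σ_x` and `tau y` is `τ_y`. -/
structure InvSolution (X : Type) where
  /-- `sigma x y = σ_x(y)` -/
  sigma : X → X → X
  /-- `tau y x = τ_y(x)` -/
  tau : X → X → X
  /-- every `σ_x` is a permutation -/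
  sigma_bij : ∀ x, Function.Bijective (sigma x)
  /-- every `τ_y` is a permutation -/
  tau_bij : ∀ y, Function.Bijective (tau y)
  /-- `r² = id` -/
  invol :
    let r : X × X → X × X := fun p => (sigma p.1 p.2, tau p.2 p.1)
    ∀ p, r (r p) = p
  /-- the braid relation `r₁₂ r₂₃ r₁₂ = r₂₃ r₁₂ r₂₃` -/
  braid :
    let r : X × X → X × X := fun p => (sigma p.1 p.2, tau p.2 p.1)
    let r12 : X × X × X → X × X × X := fun q => ((r (q.1, q.2.1)).1, (r (q.1, q.2.1)).2, q.2.2)
    let r23 : X × X × X → X × X × X := fun q => (q.1, r q.2)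
    ∀ q : X × X × X, r12 (r23 (r12 q)) = r23 (r12 (r23 q))

/-- The map `r`. -/
def InvSolution.r {X : Type} (S : InvSolution X) : X × X → X × X :=
  fun p => (S.sigma p.1 p.2, S.tau p.2 p.1)

/-- `f` is a homomorphism: `(f × f) ∘ r = r' ∘ (f × f)`. -/
def IsHom {X X' : Type} (S : InvSolution X) (S' : InvSolution X') (f : X → X') : Prop :=
  Prod.map f f ∘ S.r = S'.r ∘ Prod.map f f

/-- The solution is simple: `|X| > 1`, and every epimorphism onto a solution is bijective or has a
one-element target. -/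
def IsSimple {X : Type} (S : InvSolution X) : Prop :=
  1 < Nat.card X ∧ ∀ (X' : Type) (S' : InvSolution X') (f : X → X'), IsHom S S' f →
    Function.Surjective f → Function.Bijective f ∨ Nat.card X' = 1

/-- The permutation group `𝒢(X, r)` generated by the permutations `σ_x`. -/
noncomputable def permGroup {X : Type} (S : InvSolution X) : Subgroup (Equiv.Perm X) :=
  Subgroup.closure (Set.range fun x => Equiv.ofBijective (S.sigma x) (S.sigma_bij x))

/-- The sets `X_y = {(y, z) : z}` are blocks of imprimitivity: every element of the permutation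
group maps each of them onto one of them. -/
def AreBlocks {Y Z : Type} (S : InvSolution (Y × Z)) : Prop :=
  ∀ g ∈ permGroup S, ∀ y : Y, ∃ y' : Y, g '' {p | p.1 = y} = {p | p.1 = y'}

/-! ### the solution of order 16 -/

/-- the underlying set -/
abbrev X₀ : Type := Fin 2 × Fin 8

/-- first coordinate `a` of `(a, c)` -/
def fa (p : X₀) : ℕ := p.1.val + 2 * (p.2.val / 4)

/-- second coordinate `c` of `(a, c)` -/
def fc (p : X₀) : ℕ := p.2.val % 4

/-- the element with coordinates `(a, c)` (modulo `4`) -/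
def mk (a c : ℕ) : X₀ :=
  (⟨(a % 4) % 2, Nat.mod_lt _ (by norm_num)⟩,
    ⟨4 * ((a % 4) / 2) + c % 4, by have := Nat.mod_lt a (show 0 < 4 by norm_num); omega⟩)

/-- the sequence `j` -/
def jj (a : ℕ) : ℕ := if a % 4 = 2 then 1 else 0

/-- `σ_(a,c)(b,d) = (b + c, d - j_(b+c-a))` -/
def sg (p q : X₀) : X₀ :=
  mk (fa q + fc p) (fc q + 4 - jj (fa q + fc p + 4 - fa p))

/-- `τ_(b,d)(a,c) = (a - d', c + j_(a-b'))` with `(b',d') = σ_(a,c)(b,d)` -/
def ta (q p : X₀) : X₀ :=
  mk (fa p + 4 - fc (sg p q)) (fc p + jj (fa p + 4 - fa (sg p q)))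

/-- The solution. -/
def S₀ : InvSolution X₀ where
  sigma := sg
  tau := ta
  sigma_bij := by
    intro x
    rw [← Finite.injective_iff_bijective]
    revert x
    unfold Function.Injective
    decide +kernel
  tau_bij := by
    intro x
    rw [← Finite.injective_iff_bijective]
    revert x
    unfold Function.Injective
    decide +kernel
  invol := by
    intro r
    have h : ∀ p : X₀ × X₀, (fun p : X₀ × X₀ => (sg p.1 p.2, ta p.2 p.1))
        ((fun p : X₀ × X₀ => (sg p.1 p.2, ta p.2 p.1)) p) = p := by decide +kernel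
    exact h
  braid := by
    intro r r12 r23
    have h : ∀ x y z : X₀, sg (sg x y) (sg (ta y x) z) = sg x (sg y z) ∧
        ta (sg (ta y x) z) (sg x y) = sg (ta (sg y z) x) (ta z y) ∧
        ta z (ta y x) = ta (ta z y) (ta (sg y z) x) := by
      decide +kernel
    rintro ⟨x, y, z⟩
    obtain ⟨h1, h2, h3⟩ := h x y z
    exact Prod.ext h1 (Prod.ext h2 h3)

/-- distance of a pair of elements to the pair with indices `(12, 4)` -/
def rankTable : List ℕ :=
  [99, 3, 2, 2, 2, 3, 2, 1, 2, 3, 2, 1, 1, 1, 2, 1,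
   2, 99, 3, 2, 1, 2, 3, 2, 1, 2, 3, 2, 1, 2, 2, 2,
   2, 2, 99, 3, 2, 1, 2, 3, 2, 1, 2, 3, 2, 1, 2, 2,
   3, 2, 2, 99, 3, 2, 1, 2, 3, 2, 1, 2, 2, 2, 1, 2,
   2, 3, 2, 2, 99, 3, 3, 1, 1, 1, 2, 1, 2, 3, 2, 1,
   2, 2, 3, 2, 1, 99, 3, 3, 1, 2, 2, 2, 1, 2, 3, 2,
   2, 2, 2, 3, 3, 1, 99, 3, 2, 1, 2, 2, 2, 1, 2, 3,
   3, 2, 2, 2, 3, 3, 1, 99, 2, 2, 1, 2, 3, 2, 1, 2,
   1, 1, 2, 1, 2, 3, 2, 2, 99, 2, 3, 2, 2, 2, 2, 2,
   1, 2, 3, 2, 2, 2, 3, 2, 2, 99, 2, 3, 2, 2, 2, 2,
   2, 1, 2, 3, 2, 2, 2, 3, 3, 2, 99, 2, 2, 2, 2, 2,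
   3, 2, 1, 2, 3, 2, 2, 2, 2, 3, 2, 99, 2, 2, 2, 2,
   2, 3, 2, 2, 0, 1, 2, 1, 2, 2, 2, 1, 99, 2, 2, 1,
   2, 2, 3, 2, 1, 2, 3, 2, 1, 2, 2, 2, 1, 99, 2, 2,
   2, 2, 2, 3, 2, 1, 2, 3, 2, 1, 2, 2, 2, 1, 99, 2,
   3, 2, 2, 2, 3, 2, 1, 2, 2, 2, 1, 2, 2, 2, 1, 99]

/-- index of an element -/
def ix (p : X₀) : ℕ := 8 * p.1.val + p.2.val

/-- distance of a pair of elements -/
def rk (p q : X₀) : ℕ := rankTable.getD (16 * ix p + ix q) 99

/-- element with a given index -/
def el (k : ℕ) : X₀ := (⟨(k / 8) % 2, Nat.mod_lt _ (by norm_num)⟩, ⟨k % 8, Nat.mod_lt _ (by norm_num)⟩)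

/-- move of a pair -/
def move (m : Bool × ℕ) (p : X₀ × X₀) : X₀ × X₀ :=
  if m.1 then (sg p.1 (el m.2), sg p.2 (el m.2)) else (sg (el m.2) p.1, sg (el m.2) p.2)

/-- several moves -/
def run : List (Bool × ℕ) → X₀ × X₀ → X₀ × X₀
  | [], p => p
  | m :: l, p => run l (move m p)

theorem rank_step : ∀ p q : X₀, p ≠ q → rk p q ≤ 3 ∧ (rk p q = 0 → p = el 12 ∧ q = el 4) ∧
    (rk p q ≠ 0 → (∃ w : X₀, rk (sg w p) (sg w q) < rk p q ∧ sg w p ≠ sg w q) ∨
      ∃ w : X₀, rk (sg p w) (sg q w) < rk p q ∧ sg p w ≠ sg q w) := by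
  decide +kernel

/-- moves from the pair with indices `(12, 4)` to the pairs `(0, k)`, and to `(s, 2)` -/
def paths : List (List (Bool × ℕ)) :=
  [[],
   [(false, 7), (true, 1)],
   [(false, 7), (true, 2)],
   [(true, 0)],
   [(false, 0), (false, 0), (true, 0)],
   [(false, 0), (false, 15), (true, 1)],
   [(false, 0), (false, 0), (true, 4), (false, 2)],
   [(false, 0), (false, 6), (true, 0)],
   [(false, 8), (true, 8)],
   [(false, 3), (true, 9)],
   [(false, 3), (true, 10), (false, 4)],
   [(false, 5), (true, 8)],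
   [(false, 1)],
   [(false, 0), (false, 0), (false, 9)],
   [(false, 0), (false, 9)],
   [(false, 9)]]

theorem paths_ok : ∀ k : Fin 16, k.val ≠ 0 → run (paths.getD k.val []) (el 12, el 4) =
    (if k.val = 2 then el 1 else el 0, el k.val) := by
  decide +kernel

theorem el_surj : ∀ p : X₀, ∃ k : Fin 16, el k.val = p := by decide +kernel

theorem simple_S₀ : IsSimple S₀ := by
  refine ⟨by simp [Nat.card_eq_fintype_card], ?_⟩
  intro X' S' f hf hsurj
  have hsig : ∀ x y, f (sg x y) = S'.sigma (f x) (f y) := by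
    intro x y
    have h := congrFun hf (x, y)
    exact congrArg Prod.fst h
  have hmove : ∀ (m : Bool × ℕ) (p : X₀ × X₀), f p.1 = f p.2 →
      f (move m p).1 = f (move m p).2 := by
    intro m p h
    unfold move
    split_ifs
    · simp only [hsig, h]
    · simp only [hsig, h]
  have hrun : ∀ (l : List (Bool × ℕ)) (p : X₀ × X₀), f p.1 = f p.2 →
      f (run l p).1 = f (run l p).2 := by
    intro l
    induction l with
    | nil => intro p h; exact h
    | cons m l ih => intro p h; exact ih _ (hmove m p h)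
  by_cases hinj : Function.Injective f
  · exact Or.inl ⟨hinj, hsurj⟩
  · right
    unfold Function.Injective at hinj
    push Not at hinj
    obtain ⟨p, q, hpq, hne⟩ := hinj
    have htarget : f (el 12) = f (el 4) := by
      have key : ∀ n : ℕ, ∀ p q : X₀, p ≠ q → rk p q ≤ n → f p = f q → f (el 12) = f (el 4) := by
        intro n
        induction n with
        | zero =>
          intro p q hne hr hpq
          obtain ⟨_, h0, _⟩ := rank_step p q hne
          obtain ⟨h1, h2⟩ := h0 (by omega)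
          rw [← h1, ← h2]; exact hpq
        | succ n ih =>
          intro p q hne hr hpq
          obtain ⟨_, h0, h1⟩ := rank_step p q hne
          by_cases hz : rk p q = 0
          · obtain ⟨h2, h3⟩ := h0 hz
            rw [← h2, ← h3]; exact hpq
          · rcases h1 hz with ⟨w, hw1, hw2⟩ | ⟨w, hw1, hw2⟩
            · exact ih _ _ hw2 (by omega) (by rw [hsig, hsig, hpq])
            · exact ih _ _ hw2 (by omega) (by rw [hsig, hsig, hpq])
      exact key _ p q hne le_rfl hpq
    have h0 : ∀ k : Fin 16, k.val ≠ 2 → f (el k.val) = f (el 0) := by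
      intro k hk
      by_cases hz : k.val = 0
      · rw [hz]
      · have h1 := hrun (paths.getD k.val []) (el 12, el 4) htarget
        rw [paths_ok k hz, if_neg hk] at h1
        exact h1.symm
    have h2 : f (el 2) = f (el 0) := by
      have h1 := hrun (paths.getD 2 []) (el 12, el 4) htarget
      have h3 := paths_ok ⟨2, by norm_num⟩ (by norm_num)
      simp only [if_true] at h3
      rw [h3] at h1
      exact h1.symm.trans (h0 ⟨1, by norm_num⟩ (by norm_num))
    have hconst : ∀ x, f x = f (el 0) := by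
      intro x
      obtain ⟨k, hk⟩ := el_surj x
      rw [← hk]
      by_cases h : k.val = 2
      · rw [h]; exact h2
      · exact h0 k h
    rw [Nat.card_eq_one_iff_unique]
    refine ⟨⟨fun a b => ?_⟩, ⟨f (el 0)⟩⟩
    obtain ⟨x, rfl⟩ := hsurj a
    obtain ⟨y, rfl⟩ := hsurj b
    rw [hconst x, hconst y]

theorem blocks_S₀ : AreBlocks S₀ := by
  intro g hg
  have key : ∀ x p q : X₀, p.1 = q.1 ↔ (sg x p).1 = (sg x q).1 := by decide +kernel
  have key2 : ∀ g ∈ permGroup S₀, ∀ p q : X₀, p.1 = q.1 ↔ (g p).1 = (g q).1 := by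
    intro g hg
    induction hg using Subgroup.closure_induction with
    | mem g hg =>
      obtain ⟨x, rfl⟩ := hg
      exact key x
    | one => intro p q; exact Iff.rfl
    | mul g h _ _ ihg ihh => intro p q; exact (ihh p q).trans (ihg (h p) (h q))
    | inv g _ ih =>
      intro p q
      have h1 := ih (g⁻¹ p) (g⁻¹ q)
      have e1 : g (g⁻¹ p) = p := by simp
      have e2 : g (g⁻¹ q) = q := by simp
      rw [e1, e2] at h1
      exact h1.symm
  intro y
  refine ⟨(g (y, 0)).1, ?_⟩
  ext p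
  constructor
  · rintro ⟨q, hq, rfl⟩
    exact ((key2 g hg q (y, 0)).1 hq)
  · intro hp
    refine ⟨g⁻¹ p, ?_, by simp⟩
    have h1 := (key2 g hg (g⁻¹ p) (y, 0)).2
    have e1 : g (g⁻¹ p) = p := by simp
    rw [e1] at h1
    exact h1 hp

/-- **Q1: yes.** There is a finite simple involutive non-degenerate solution of the Yang-Baxter
equation on `X = Y × Z`, `|Y| > 1`, `|Z| > 1`, for which the sets `X_y` are blocks of imprimitivity
of the permutation group, and `|Z|` does not divide `|Y|`: here `|Y| = 2` and `|Z| = 8`. -/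
theorem result :
    ∃ (Y Z : Type) (_ : Finite Y) (_ : Finite Z) (S : InvSolution (Y × Z)),
      1 < Nat.card Y ∧ 1 < Nat.card Z ∧ IsSimple S ∧ AreBlocks S ∧
        Nat.card Y = 2 ∧ Nat.card Z = 8 ∧ ¬ Nat.card Z ∣ Nat.card Y := by
  refine ⟨Fin 2, Fin 8, inferInstance, inferInstance, S₀, ?_, ?_, simple_S₀, blocks_S₀, ?_, ?_, ?_⟩
  all_goals simp [Nat.card_eq_fintype_card]

end Pool.Agent.Results.MP_9f168b_al.NonDividingBlocks
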